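import Pool.Agent.N812.BC.Fi

/-!
# Equivalences, adjoints
-/

set_option autoImplicit false

namespace Pool.Agent.N812.BC

open MeasureTheory Set Metric Filter Topology
open Pool.Agent.R277.SP (FC ad ad_apply adΦ)
open Pool.Agent.N812.BA (PNuc Chb)
open Pool.Agent.N812.BB hiding wf wf_meas wf_lq
open Pool.Agent.Y283.NK (HasHyp)
open ContinuousLinearMap (compL inl inr fst snd)
open scoped ENNReal NNReal

section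

variable {X Z : Type} [NormedAddCommGroup X] [NormedSpace ℂ X] [NormedAddCommGroup Z]
  [NormedSpace ℂ Z]

lemma pnuc_conj {p : ℝ} (hp : 0 < p) {K : X →L[ℂ] X} (hK : PNuc p K) (P : X →L[ℂ] Z)
    (J : Z →L[ℂ] X) : PNuc p (P.comp (K.comp J)) := by
  obtain ⟨u, v, h1, h2⟩ := hK
  refine ⟨fun j => P (u j), fun j => (v j).comp J, ?_, fun z => ?_⟩
  · refine Summable.of_nonneg_of_le (fun j => by positivity) (fun j => ?_)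
      (h1.mul_left ((‖J‖ * ‖P‖) ^ p))
    rw [← Real.mul_rpow (by positivity) (by positivity)]
    refine Real.rpow_le_rpow (by positivity) ?_ hp.le
    calc ‖(v j).comp J‖ * ‖P (u j)‖ ≤ (‖v j‖ * ‖J‖) * (‖P‖ * ‖u j‖) :=
          mul_le_mul ((v j).opNorm_comp_le J) (P.le_opNorm _) (norm_nonneg _) (by positivity)
      _ = _ := by ring
  · have h3 := (h2 (J z)).mapL P
    refine h3.congr_fun fun j => ?_
    rw [map_smul]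
    rfl

lemma spec_ad {R : X →L[ℂ] X} {z : ℂ} (h : z ∈ spectrum ℂ (ad R)) : z ∈ spectrum ℂ R := by
  by_contra hz
  rw [spectrum.notMem_iff] at hz
  obtain ⟨u, hu⟩ := hz
  apply h
  rw [spectrum.mem_resolventSet_iff]
  have e1 : z • (1 : (X →L[ℂ] ℂ) →L[ℂ] (X →L[ℂ] ℂ)) - ad R = ad (u : X →L[ℂ] X) := by
    rw [hu]
    ext f x
    show z • f x - f (R x) = f (z • x - R x)
    rw [map_sub, map_smul]
  rw [Algebra.algebraMap_eq_smul_one, e1]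
  have e2 : ∀ A B : X →L[ℂ] X, A * B = 1 → ad B * ad A = 1 := by
    intro A B hAB
    ext f x
    show f (A (B x)) = f x
    have : A (B x) = x := congrArg (fun T : X →L[ℂ] X => T x) hAB
    rw [this]
  exact ⟨⟨ad (u : X →L[ℂ] X), ad (↑u⁻¹ : X →L[ℂ] X), e2 _ _ u.inv_mul, e2 _ _ u.mul_inv⟩, rfl⟩

end

section

variable {X X₀ X₁ X₂ : Type} [NormedAddCommGroup X] [NormedSpace ℂ X]
    [NormedAddCommGroup X₀] [NormedSpace ℂ X₀] [NormedAddCommGroup X₁]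
    [NormedSpace ℂ X₁] [NormedAddCommGroup X₂] [NormedSpace ℂ X₂]
    {R₀ : X₀ →L[ℂ] X₀} {R₂ : X₂ →L[ℂ] X₂} {N : X₁ →L[ℂ] X₁}

/-- `A` is upper triangular on `X ≅ X₀ × X₁ × X₂` -/
def TriX (A : X →L[ℂ] X) (R₀ : X₀ →L[ℂ] X₀) (N : X₁ →L[ℂ] X₁) (R₂ : X₂ →L[ℂ] X₂) : Prop :=
  ∃ (e : (X₀ × X₁ × X₂) ≃L[ℂ] X) (α : X₁ →L[ℂ] X₀) (β : X₂ →L[ℂ] X₀) (γ : X₂ →L[ℂ] X₁),
    ∀ x y w, A (e (x, y, w)) = e (R₀ x + α y + β w, N y + γ w, R₂ w)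

/-- the primal side -/
theorem primal {p : ℝ} (hp : 0 < p) {A K : X →L[ℂ] X} (hA : TriX A R₀ N R₂) (hK : PNuc p K) :
    ∃ (B K' : X₀ × X₁ × X₂ →L[ℂ] X₀ × X₁ × X₂) (J : X₀ × X₁ × X₂ →L[ℂ] X), Tri B R₀ N R₂ ∧
      PNuc p K' ∧ Function.Injective J ∧ ∀ y, (A + K) (J y) = J ((B + K') y) := by
  obtain ⟨e, α, β, γ, h⟩ := hA
  refine ⟨(e.symm : X →L[ℂ] X₀ × X₁ × X₂).comp (A.comp (e : X₀ × X₁ × X₂ →L[ℂ] X)),
    (e.symm : X →L[ℂ] X₀ × X₁ × X₂).comp (K.comp (e : X₀ × X₁ × X₂ →L[ℂ] X)),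
    (e : X₀ × X₁ × X₂ →L[ℂ] X), ⟨α, β, γ, fun x y w => ?_⟩, pnuc_conj hp hK _ _, e.injective,
    fun y => ?_⟩
  · show e.symm (A (e (x, y, w))) = _
    rw [h, e.symm_apply_apply]
  · show A (e y) + K (e y) = e (e.symm (A (e y)) + e.symm (K (e y)))
    rw [map_add, e.apply_symm_apply, e.apply_symm_apply]

/-- the dual side -/
theorem dual [CompleteSpace X] {p : ℝ} (hp : 0 < p) (hp1 : p < 1) {A K : X →L[ℂ] X}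
    (hA : TriX A R₀ N R₂) (hK : PNuc p K) :
    ∃ (B K' : (X₂ →L[ℂ] ℂ) × (X₁ →L[ℂ] ℂ) × (X₀ →L[ℂ] ℂ) →L[ℂ]
        (X₂ →L[ℂ] ℂ) × (X₁ →L[ℂ] ℂ) × (X₀ →L[ℂ] ℂ))
      (J : (X₂ →L[ℂ] ℂ) × (X₁ →L[ℂ] ℂ) × (X₀ →L[ℂ] ℂ) →L[ℂ] (X →L[ℂ] ℂ)),
      Tri B (ad R₂) (ad N) (ad R₀) ∧
      PNuc p K' ∧ Function.Injective J ∧ ∀ y, ad (A + K) (J y) = J ((B + K') y) := by
  obtain ⟨e, α, β, γ, h⟩ := hA
  set q₀ : X →L[ℂ] X₀ := (fst ℂ X₀ (X₁ × X₂)).comp (e.symm : X →L[ℂ] X₀ × X₁ × X₂) with hq₀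
  set q₁ : X →L[ℂ] X₁ := ((fst ℂ X₁ X₂).comp (snd ℂ X₀ (X₁ × X₂))).comp
    (e.symm : X →L[ℂ] X₀ × X₁ × X₂) with hq₁
  set q₂ : X →L[ℂ] X₂ := ((snd ℂ X₁ X₂).comp (snd ℂ X₀ (X₁ × X₂))).comp
    (e.symm : X →L[ℂ] X₀ × X₁ × X₂) with hq₂
  set i₀ : X₀ →L[ℂ] X := (e : X₀ × X₁ × X₂ →L[ℂ] X).comp (inl ℂ X₀ (X₁ × X₂)) with hi₀
  set i₁ : X₁ →L[ℂ] X := (e : X₀ × X₁ × X₂ →L[ℂ] X).comp
    ((inr ℂ X₀ (X₁ × X₂)).comp (inl ℂ X₁ X₂)) with hi₁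
  set i₂ : X₂ →L[ℂ] X := (e : X₀ × X₁ × X₂ →L[ℂ] X).comp
    ((inr ℂ X₀ (X₁ × X₂)).comp (inr ℂ X₁ X₂)) with hi₂
  set V₀ := X₀ →L[ℂ] ℂ
  set V₁ := X₁ →L[ℂ] ℂ
  set V₂ := X₂ →L[ℂ] ℂ
  set J : V₂ × V₁ × V₀ →L[ℂ] (X →L[ℂ] ℂ) :=
    ((compL ℂ X X₂ ℂ).flip q₂).comp (fst ℂ V₂ (V₁ × V₀)) +
    ((compL ℂ X X₁ ℂ).flip q₁).comp ((fst ℂ V₁ V₀).comp (snd ℂ V₂ (V₁ × V₀))) +
    ((compL ℂ X X₀ ℂ).flip q₀).comp ((snd ℂ V₁ V₀).comp (snd ℂ V₂ (V₁ × V₀))) with hJ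
  have hJx : ∀ (f₂ : V₂) (f₁ : V₁) (f₀ : V₀) (x : X₀) (y : X₁) (w : X₂),
      J (f₂, f₁, f₀) (e (x, y, w)) = f₂ w + f₁ y + f₀ x := by
    intro f₂ f₁ f₀ x y w
    show f₂ (e.symm (e (x, y, w))).2.2 + f₁ (e.symm (e (x, y, w))).2.1 +
      f₀ (e.symm (e (x, y, w))).1 = _
    rw [e.symm_apply_apply]
  set P : (X →L[ℂ] ℂ) →L[ℂ] V₂ × V₁ × V₀ :=
    ((compL ℂ X₂ X ℂ).flip i₂).prod
      (((compL ℂ X₁ X ℂ).flip i₁).prod ((compL ℂ X₀ X ℂ).flip i₀)) with hP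
  have hext : ∀ f g : X →L[ℂ] ℂ, (∀ x y w, f (e (x, y, w)) = g (e (x, y, w))) → f = g := by
    intro f g hfg
    ext x
    obtain ⟨⟨a, b, c⟩, rfl⟩ := e.surjective x
    exact hfg a b c
  have hJP : ∀ f, J (P f) = f := by
    intro f
    refine hext _ _ fun x y w => ?_
    have h1 : P f = (f.comp i₂, f.comp i₁, f.comp i₀) := rfl
    rw [h1, hJx]
    show f (e (0, 0, w)) + f (e (0, y, 0)) + f (e (x, 0, 0)) = f (e (x, y, w))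
    rw [← map_add, ← map_add, ← map_add, ← map_add]
    congr 2
    simp
  set B : V₂ × V₁ × V₀ →L[ℂ] V₂ × V₁ × V₀ :=
    ((ad R₂).comp (fst ℂ V₂ (V₁ × V₀)) +
      ((compL ℂ X₂ X₁ ℂ).flip γ).comp ((fst ℂ V₁ V₀).comp (snd ℂ V₂ (V₁ × V₀))) +
      ((compL ℂ X₂ X₀ ℂ).flip β).comp ((snd ℂ V₁ V₀).comp (snd ℂ V₂ (V₁ × V₀)))).prod
    (((ad N).comp ((fst ℂ V₁ V₀).comp (snd ℂ V₂ (V₁ × V₀))) +
      ((compL ℂ X₁ X₀ ℂ).flip α).comp ((snd ℂ V₁ V₀).comp (snd ℂ V₂ (V₁ × V₀)))).prod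
    ((ad R₀).comp ((snd ℂ V₁ V₀).comp (snd ℂ V₂ (V₁ × V₀))))) with hB
  refine ⟨B, P.comp ((ad K).comp J), J, ⟨(compL ℂ X₂ X₁ ℂ).flip γ, (compL ℂ X₂ X₀ ℂ).flip β,
    (compL ℂ X₁ X₀ ℂ).flip α, fun x y w => rfl⟩, pnuc_conj hp (hK.dual hp hp1) _ _, ?_, fun v => ?_⟩
  · rintro ⟨f₂, f₁, f₀⟩ ⟨g₂, g₁, g₀⟩ hfg
    have h1 : ∀ x y w, f₂ w + f₁ y + f₀ x = g₂ w + g₁ y + g₀ x := fun x y w => by
      rw [← hJx, ← hJx, hfg]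
    refine Prod.ext (ContinuousLinearMap.ext fun w => ?_)
      (Prod.ext (ContinuousLinearMap.ext fun y => ?_) (ContinuousLinearMap.ext fun x => ?_))
    · simpa using h1 0 0 w
    · simpa using h1 0 y 0
    · simpa using h1 x 0 0
  · have h1 : J ((B + P.comp ((ad K).comp J)) v) = J (B v) + ad K (J v) := by
      show J (B v + P (ad K (J v))) = _
      rw [map_add, hJP]
    rw [h1]
    have h2 : ad (A + K) (J v) = ad A (J v) + ad K (J v) := by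
      refine ContinuousLinearMap.ext fun x => ?_
      show J v (A x + K x) = J v (A x) + J v (K x)
      rw [map_add]
    rw [h2]
    congr 1
    obtain ⟨f₂, f₁, f₀⟩ := v
    refine hext _ _ fun x y w => ?_
    have h3 : B (f₂, f₁, f₀) = (f₂.comp R₂ + f₁.comp γ + f₀.comp β, f₁.comp N + f₀.comp α,
      f₀.comp R₀) := rfl
    rw [h3, hJx]
    show J (f₂, f₁, f₀) (A (e (x, y, w))) = _
    rw [h, hJx]
    show f₂ (R₂ w) + f₁ (N y + γ w) + f₀ (R₀ x + α y + β w) =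
      (f₂ (R₂ w) + f₁ (γ w) + f₀ (β w)) + (f₁ (N y) + f₀ (α y)) + f₀ (R₀ x)
    rw [map_add, map_add, map_add]
    abel

end

/-- cut off -/
lemma cutoff {S : Set ℂ} (hS : IsCompact S) (h : C(ℂ, ℂ)) : ∃ (h' : C(ℂ, ℂ)) (r : ℝ), 0 < r ∧
    (∀ z, z ∉ ball (0:ℂ) r → h' z = 0) ∧ (∀ z, h z = 0 → h' z = 0) ∧
    h'.restrict S = h.restrict S := by
  obtain ⟨D, hD⟩ := hS.isBounded.exists_norm_le
  refine ⟨⟨fun z => h z * ((max 0 (min 1 (|D| + 1 - ‖z‖)) : ℝ) : ℂ), by fun_prop⟩, |D| + 1,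
    by positivity, fun z hz => ?_, fun z hz => ?_, ?_⟩
  · rw [mem_ball_zero_iff, not_lt] at hz
    show h z * ((max 0 (min 1 (|D| + 1 - ‖z‖)) : ℝ) : ℂ) = 0
    rw [max_eq_left ((min_le_right _ _).trans (by linarith)), Complex.ofReal_zero, mul_zero]
  · show h z * _ = 0
    rw [hz, zero_mul]
  · ext s
    show h s * ((max 0 (min 1 (|D| + 1 - ‖(s : ℂ)‖)) : ℝ) : ℂ) = h s
    have h1 := (hD s s.2).trans (le_abs_self D)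
    rw [min_eq_left (by linarith), max_eq_right zero_le_one, Complex.ofReal_one, mul_one]

end Pool.Agent.N812.BC
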