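import Pool.Agent.N812.BC.Ex

/-!
# The perturbation theory without commutation
-/

set_option autoImplicit false

namespace Pool.Agent.N812.BC

open MeasureTheory Set Metric Filter Topology
open Pool.Agent.R276.CP Pool.Agent.R276.CP.Fat
open Pool.Agent.N812.BB hiding wf wf_meas wf_lq
open Pool.Agent.N812.IS (nn nn_meas nn_smul nn_le_ps tl tl_meas tl_zero Xi Xi_meas ps ps_meas ps_nonneg ps_zero
  ps_of_le ps_of_ge ev_norm)
open Pool.Agent.Y271.RO (Bd)
open scoped InnerProductSpace ENNReal NNReal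

variable {ν : Measure ℂ} [IsFiniteMeasure ν]

section

variable {X : Type} [NormedAddCommGroup X] [NormedSpace ℂ X] {N : X →L[ℂ] X} {q C : ℝ}
  {R : (ℂ → ℂ) → (X →L[ℂ] X)}

/-- the weak resolvent -/
noncomputable def wf (hR : Rs ν q C N R) (hq : 1 < q) (y : X →L[ℂ] ℂ) (x : X) : ℂ → ℂ :=
  den hR.lq hq (me y x)

lemma wf_meas (hR : Rs ν q C N R) (hq : 1 < q) (y : X →L[ℂ] ℂ) (x : X) :
    Measurable (wf hR hq y x) := den_meas hR.lq hq _

lemma wf_lq (hR : Rs ν q C N R) (hq : 1 < q) (y : X →L[ℂ] ℂ) (x : X) :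
    ∫⁻ z, ENNReal.ofReal (‖wf hR hq y x z‖ ^ (q / (q - 1))) ∂ν ≤
      ENNReal.ofReal ((‖y‖ * (C * ‖x‖)) ^ (q / (q - 1))) := by
  refine (den_lq hR.lq hq (me y x)).trans (ENNReal.ofReal_le_ofReal ?_)
  have hq0 : 0 < q - 1 := by linarith
  refine Real.rpow_le_rpow (mul_nonneg hR.lq.nonneg (norm_nonneg _)) ?_ (by positivity)
  calc C * ‖me y x‖ ≤ C * (‖y‖ * ‖x‖) := mul_le_mul_of_nonneg_left (me_norm y x) hR.lq.nonneg
    _ = _ := by ring

theorem Rs.cal (hR : Rs ν q C N R) (hq : 1 < q) :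
    Cal ν N R (fun y : X →L[ℂ] ℂ => y) (wf hR hq) := by
  refine ⟨fun x B hB hx => ?_, hR.step, fun r hr => ?_, wf_meas hR hq, fun y x a r B g hg => ?_⟩
  · exact NormedSpace.norm_le_dual_bound ℂ x hB fun y => hx y
  · refine ⟨C * (ν univ).toReal ^ (1 / q), mul_nonneg hR.lq.nonneg (by positivity),
      fun a B g hg => ?_⟩
    refine (hR.lq.bd g a r B hg).trans ?_
    rw [mul_assoc]
    refine mul_le_mul_of_nonneg_left ?_ hR.lq.nonneg
    rw [mul_comm]
    exact eLp_bd hg.nonneg hq hg.bd MeasurableSet.univ fun z hz => absurd (mem_univ z) hz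
  · exact den_rep hR.lq hq (me y x) a r B g hg

/-- the perturbations -/
theorem Rs.pert (hR : Rs ν q C N R) (hq : 2 ≤ q) {u : ℕ → X} {v : ℕ → (X →L[ℂ] ℂ)}
    (hu : Summable fun j => ‖u j‖ ^ (q / (q - 1))) (hv : Summable fun j => ‖v j‖ ^ (q / (q - 1)))
    {K : X →L[ℂ] X} (hK : ∀ x, HasSum (fun j => v j x • u j) (K x)) :
    Pert ν (fun y : X →L[ℂ] ℂ => y) (wf hR (by linarith)) u v K := by
  have hq0 : 0 < q - 1 := by linarith
  have hq1 : 1 < q := by linarith
  set s : ℝ := q / (q - 1) with hs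
  have hs1 : 1 ≤ s := by
    rw [hs, le_div_iff₀ hq0]
    linarith
  have hs2 : s ≤ 2 := by
    rw [hs, div_le_iff₀ hq0]
    linarith
  have hCu : Summable fun j => (C * ‖u j‖) ^ s := by
    refine (hu.mul_left (C ^ s)).congr fun i => ?_
    rw [Real.mul_rpow hR.lq.nonneg (norm_nonneg _)]
  have hb := tails (ν := ν) (a := fun (y : X →L[ℂ] ℂ) z j => wf hR hq1 y (u j) z)
    (fun y j => wf_meas hR hq1 _ _) (w := fun y => ‖y‖) (fun y => norm_nonneg _) hs1 hs2
    (t := fun j => C * ‖u j‖) (fun j => mul_nonneg hR.lq.nonneg (norm_nonneg _)) hCu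
    (fun y j => wf_lq hR hq1 y (u j))
  refine ⟨fun x => (hK x).tendsto_sum_nat, ?_, fun r => ?_, fun r ε hε => ?_⟩
  · -- the matrix
    have hm : ∀ i j, Measurable fun z => ENNReal.ofReal (ps ‖wf hR hq1 (v i) (u j) z‖) :=
      fun i j => (ps_meas.comp (wf_meas hR hq1 _ _).norm).ennreal_ofReal
    have hX : ∫⁻ z, Xi (fun i j z => wf hR hq1 (v i) (u j) z) z ∂ν ≠ ⊤ := by
      unfold Xi
      rw [lintegral_tsum fun j => (Measurable.tsum fun i => hm i j).aemeasurable]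
      refine ne_of_lt ?_
      calc ∑' j, ∫⁻ z, ∑' i, ENNReal.ofReal (ps ‖wf hR hq1 (v i) (u j) z‖) ∂ν
          = ∑' j, ∑' i, ∫⁻ z, ENNReal.ofReal (ps ‖wf hR hq1 (v i) (u j) z‖) ∂ν :=
            tsum_congr fun j => lintegral_tsum fun i => (hm i j).aemeasurable
        _ ≤ ∑' j, ∑' i, ENNReal.ofReal (‖v i‖ ^ s) * ENNReal.ofReal ((C * ‖u j‖) ^ s) := by
            refine ENNReal.tsum_le_tsum fun j => ENNReal.tsum_le_tsum fun i => ?_
            refine (lintegral_mono fun z => ENNReal.ofReal_le_ofReal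
              (ps_le_pow (norm_nonneg _) hs1 hs2)).trans ((wf_lq hR hq1 (v i) (u j)).trans ?_)
            rw [Real.mul_rpow (norm_nonneg _) (mul_nonneg hR.lq.nonneg (norm_nonneg _)),
              ENNReal.ofReal_mul (by positivity)]
        _ = (∑' i, ENNReal.ofReal (‖v i‖ ^ s)) * ∑' j, ENNReal.ofReal ((C * ‖u j‖) ^ s) := by
            simp_rw [ENNReal.tsum_mul_right, ENNReal.tsum_mul_left]
        _ < ⊤ := by
            refine ENNReal.mul_lt_top ?_ ?_
            · rw [← ENNReal.ofReal_tsum_of_nonneg (fun i => Real.rpow_nonneg (norm_nonneg _) _) hv]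
              exact ENNReal.ofReal_lt_top
            · rw [← ENNReal.ofReal_tsum_of_nonneg (fun i => Real.rpow_nonneg
                (mul_nonneg hR.lq.nonneg (norm_nonneg _)) _) hCu]
              exact ENNReal.ofReal_lt_top
    have hXm : Measurable fun z => Xi (fun i j z => wf hR hq1 (v i) (u j) z) z :=
      Xi_meas fun i j => wf_meas hR hq1 _ _
    exact (ae_lt_top hXm hX).mono fun z hz => hz.ne
  · obtain ⟨D, hD0, hD⟩ := hb.1
    exact ⟨D, hD0, fun y => (setLIntegral_le_lintegral _ _).trans (hD y)⟩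
  · obtain ⟨n, hn⟩ := hb.2 ε hε
    exact ⟨n, fun y => (setLIntegral_le_lintegral _ _).trans (hn y)⟩

end

end Pool.Agent.N812.BC
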