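import Pool.Agent.N812.BC.Us

/-!
# Triangular extensions
-/

set_option autoImplicit false

namespace Pool.Agent.N812.BC

open MeasureTheory Set Metric Filter Topology
open Pool.Agent.N812.BB
open Pool.Agent.Y271.RO (Bd)
open ContinuousLinearMap (compL inl inr fst snd)
open scoped ENNReal NNReal

/-- the operators `∫ g(z) (z - A)⁻¹ dν` -/
structure Rs {X : Type} [NormedAddCommGroup X] [NormedSpace ℂ X] (ν : Measure ℂ) (q C : ℝ)
    (A : X →L[ℂ] X) (R : (ℂ → ℂ) → (X →L[ℂ] X)) : Prop where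
  lq : Lq ν q C R
  step : ∀ (a c : ℂ) (r B : ℝ) (g : ℂ → ℂ) (x : X), Bd g c r B →
    A (R g x) - a • R g x = R (fun z => (z - a) * g z) x - (∫ z, g z ∂ν) • x

/-- the vectors `g(A) x` -/
structure Ls {X : Type} [NormedAddCommGroup X] [NormedSpace ℂ X] (ν : Measure ℂ) (q C : ℝ)
    (A : X →L[ℂ] X) (Λ : (ℂ → ℂ) → X) : Prop where
  lq : Lq ν q C Λ
  step : ∀ (a c : ℂ) (r B : ℝ) (g : ℂ → ℂ), Bd g c r B →
    A (Λ g) - a • Λ g = Λ fun z => (z - a) * g z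

section

variable {X : Type} [NormedAddCommGroup X] [NormedSpace ℂ X]

/-- `(-1)^k W^(k+1)` -/
noncomputable def lw (W : X →L[ℂ] X) (k : ℕ) : X →L[ℂ] X := (-1 : ℂ) ^ k • W ^ (k + 1)

lemma lw_norm (W : X →L[ℂ] X) (k : ℕ) : ‖lw W k‖ ≤ ‖W‖ * ‖W‖ ^ k := by
  unfold lw
  rw [norm_smul, norm_pow, norm_neg, norm_one, one_pow, one_mul, ← pow_succ']
  exact norm_pow_le' W (Nat.succ_pos k)

variable {W R₀ : X →L[ℂ] X} {z₀ : ℂ}

lemma lw_zero (x : X) : lw W 0 x = W x := by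
  simp [lw]

lemma lw_succ (k : ℕ) (x : X) : lw W (k + 1) x = - W (lw W k x) := by
  unfold lw
  rw [pow_succ' W (k + 1), pow_succ (-1 : ℂ) k]
  simp only [mul_neg, mul_one, neg_smul, neg_apply, ContinuousLinearMap.smul_apply, map_smul]
  rfl

lemma lw_h0 (hW : ∀ x, z₀ • W x - R₀ (W x) = x) (x : X) : R₀ (lw W 0 x) = z₀ • lw W 0 x - x := by
  rw [lw_zero]
  exact eq_sub_of_add_eq (sub_eq_iff_eq_add'.1 (hW x)).symm

lemma lw_h1 (hW : ∀ x, z₀ • W x - R₀ (W x) = x) (k : ℕ) (x : X) :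
    R₀ (lw W (k + 1) x) = z₀ • lw W (k + 1) x + lw W k x := by
  rw [lw_succ]
  have := hW (lw W k x)
  rw [map_neg, smul_neg]
  nth_rewrite 3 [← this]
  abel

end

section

variable {X₀ Y : Type} [NormedAddCommGroup X₀] [NormedSpace ℂ X₀] [CompleteSpace X₀]
  [NormedAddCommGroup Y] [NormedSpace ℂ Y] {ν : Measure ℂ} [IsFiniteMeasure ν] {q C r₀ : ℝ}
  {W R₀ : X₀ →L[ℂ] X₀} {z₀ : ℂ} {B : Y →L[ℂ] Y} {α : Y →L[ℂ] X₀} {A : X₀ × Y →L[ℂ] X₀ × Y}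
  {R : (ℂ → ℂ) → (Y →L[ℂ] Y)} {Λ : (ℂ → ℂ) → Y}

/-- **Left extension, the resolvent** -/
theorem left_rs (hq : 1 < q) (hr : 0 ≤ r₀) (hD : ‖W‖ * r₀ ≤ 1 / 2) (hae : ∀ᵐ z ∂ν, ‖z - z₀‖ ≤ r₀)
    (hW : ∀ x, z₀ • W x - R₀ (W x) = x) (hB : Rs ν q C B R)
    (hA : ∀ x y, A (x, y) = (R₀ x + α y, B y)) :
    ∃ (C' : ℝ) (R' : (ℂ → ℂ) → (X₀ × Y →L[ℂ] X₀ × Y)), Rs ν q C' A R' := by
  obtain ⟨C₁, hI⟩ := int_lq (ν := ν) hq
  set T1 : ℂ →L[ℂ] (X₀ × Y →L[ℂ] X₀) :=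
    ContinuousLinearMap.toSpanSingleton ℂ (fst ℂ X₀ Y) with hT1
  set T2 : (Y →L[ℂ] Y) →L[ℂ] (X₀ × Y →L[ℂ] X₀) :=
    (compL ℂ (X₀ × Y) Y X₀ α).comp ((compL ℂ (X₀ × Y) Y Y).flip (snd ℂ X₀ Y)) with hT2
  have hΨ := Lq.plus (hI.comp T1) (hB.lq.comp T2)
  set Ψ : (ℂ → ℂ) → (X₀ × Y →L[ℂ] X₀) := fun g => T1 (∫ z, g z ∂ν) + T2 (R g) with hΨd
  have hΨx : ∀ g x, Ψ g x = (∫ z, g z ∂ν) • x.1 + α (R g x.2) := fun g x => rfl
  have hSd : Sd ν (fun k => compL ℂ (X₀ × Y) X₀ X₀ (lw W k)) z₀ ‖W‖ ‖W‖ r₀ := by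
    refine ⟨fun k => ?_, norm_nonneg _, hr, hD, hae⟩
    refine le_trans ?_ (lw_norm W k)
    refine ContinuousLinearMap.opNorm_le_bound _ (norm_nonneg _) fun T => ?_
    exact (lw W k).opNorm_comp_le T
  set U := us (fun k => compL ℂ (X₀ × Y) X₀ X₀ (lw W k)) z₀ Ψ with hU
  have hUq := hSd.lq hΨ
  set T3 : (X₀ × Y →L[ℂ] X₀) →L[ℂ] (X₀ × Y →L[ℂ] X₀ × Y) :=
    compL ℂ (X₀ × Y) X₀ (X₀ × Y) (inl ℂ X₀ Y) with hT3
  set T4 : (Y →L[ℂ] Y) →L[ℂ] (X₀ × Y →L[ℂ] X₀ × Y) :=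
    (compL ℂ (X₀ × Y) Y (X₀ × Y) (inr ℂ X₀ Y)).comp
      ((compL ℂ (X₀ × Y) Y Y).flip (snd ℂ X₀ Y)) with hT4
  refine ⟨_, fun g => T3 (U g) + T4 (R g), Lq.plus (hUq.comp T3) (hB.lq.comp T4),
    fun a c r b g x hg => ?_⟩
  have e : ∀ g, (T3 (U g) + T4 (R g)) x = (U g x, R g x.2) := by
    intro g
    show inl ℂ X₀ Y (U g x) + inr ℂ X₀ Y (R g x.2) = _
    simp
  rw [e, e, hA]
  have h1 := us_id hSd hΨ (S := compL ℂ (X₀ × Y) X₀ X₀ R₀) (J := ContinuousLinearMap.id ℂ _)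
    (fun v => ContinuousLinearMap.ext fun y => lw_h0 hW (v y))
    (fun k v => ContinuousLinearMap.ext fun y => lw_h1 hW k (v y)) hg a
  have h2 : R₀ (U g x) - a • U g x = U (fun z => (z - a) * g z) x - Ψ g x :=
    congrArg (fun T : X₀ × Y →L[ℂ] X₀ => T x) h1
  have h3 := hB.step a c r b g x.2 hg
  rw [hΨx] at h2
  refine Prod.ext ?_ ?_
  · show R₀ (U g x) + α (R g x.2) - a • U g x = U (fun z => (z - a) * g z) x - (∫ z, g z ∂ν) • x.1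
    rw [add_sub_right_comm, h2]
    abel
  · exact h3

/-- **Left extension, the vectors** -/
theorem left_ls (hr : 0 ≤ r₀) (hD : ‖W‖ * r₀ ≤ 1 / 2) (hae : ∀ᵐ z ∂ν, ‖z - z₀‖ ≤ r₀)
    (hW : ∀ x, z₀ • W x - R₀ (W x) = x) (hB : Ls ν q C B Λ)
    (hA : ∀ x y, A (x, y) = (R₀ x + α y, B y)) :
    ∃ (C' : ℝ) (Λ' : (ℂ → ℂ) → X₀ × Y), Ls ν q C' A Λ' ∧ ∀ g, (Λ' g).2 = Λ g := by
  have hΨ := hB.lq.comp α
  have hSd : Sd ν (lw W) z₀ ‖W‖ ‖W‖ r₀ := ⟨lw_norm W, norm_nonneg _, hr, hD, hae⟩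
  set U := us (lw W) z₀ (fun g => α (Λ g)) with hU
  have hUq := hSd.lq hΨ
  refine ⟨_, fun g => inl ℂ X₀ Y (U g) + inr ℂ X₀ Y (Λ g),
    ⟨Lq.plus (hUq.comp (inl ℂ X₀ Y)) (hB.lq.comp (inr ℂ X₀ Y)), fun a c r b g hg => ?_⟩,
    fun g => by simp⟩
  have e : ∀ g, inl ℂ X₀ Y (U g) + inr ℂ X₀ Y (Λ g) = (U g, Λ g) := fun g => by simp
  rw [e, e, hA]
  have h1 := us_id hSd hΨ (S := R₀) (J := ContinuousLinearMap.id ℂ _)
    (fun v => lw_h0 hW v) (fun k v => lw_h1 hW k v) hg a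
  have h3 := hB.step a c r b g hg
  refine Prod.ext ?_ ?_
  · show R₀ (U g) + α (Λ g) - a • U g = U (fun z => (z - a) * g z)
    rw [add_sub_right_comm]
    show R₀ (us (lw W) z₀ (fun g => α (Λ g)) g) - a • us (lw W) z₀ (fun g => α (Λ g)) g + _ = _
    rw [h1]
    show _ - α (Λ g) + _ = _
    rw [sub_add_cancel]
  · exact h3

end

section

variable {X₂ Y : Type} [NormedAddCommGroup X₂] [NormedSpace ℂ X₂] [CompleteSpace X₂]
  [NormedAddCommGroup Y] [NormedSpace ℂ Y] [CompleteSpace Y] {ν : Measure ℂ} [IsFiniteMeasure ν]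
  {q C r₀ : ℝ}
  {W R₂ : X₂ →L[ℂ] X₂} {z₀ : ℂ} {B : Y →L[ℂ] Y} {γ : X₂ →L[ℂ] Y} {A : Y × X₂ →L[ℂ] Y × X₂}
  {R : (ℂ → ℂ) → (Y →L[ℂ] Y)} {Λ : (ℂ → ℂ) → Y}

/-- **Right extension, the vectors** -/
theorem right_ls (hB : Ls ν q C B Λ) (hA : ∀ y x, A (y, x) = (B y + γ x, R₂ x)) :
    ∃ (C' : ℝ) (Λ' : (ℂ → ℂ) → Y × X₂), Ls ν q C' A Λ' ∧ ∀ g, (Λ' g).1 = Λ g := by
  refine ⟨_, fun g => inl ℂ Y X₂ (Λ g), ⟨hB.lq.comp (inl ℂ Y X₂), fun a c r b g hg => ?_⟩,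
    fun g => by simp⟩
  have e : ∀ g, inl ℂ Y X₂ (Λ g) = (Λ g, 0) := fun g => by simp
  rw [e, e, hA, map_zero, map_zero, add_zero]
  have h3 := hB.step a c r b g hg
  refine Prod.ext h3 ?_
  simp

/-- **Right extension, the resolvent** -/
theorem right_rs (hq : 1 < q) (hr : 0 ≤ r₀) (hD : ‖W‖ * r₀ ≤ 1 / 2) (hae : ∀ᵐ z ∂ν, ‖z - z₀‖ ≤ r₀)
    (hW : ∀ x, z₀ • W x - R₂ (W x) = x) (hB : Rs ν q C B R)
    (hA : ∀ y x, A (y, x) = (B y + γ x, R₂ x)) :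
    ∃ (C' : ℝ) (R' : (ℂ → ℂ) → (Y × X₂ →L[ℂ] Y × X₂)), Rs ν q C' A R' := by
  obtain ⟨C₁, hI⟩ := int_lq (ν := ν) hq
  set T5 : ℂ →L[ℂ] (X₂ →L[ℂ] Y × X₂) :=
    ContinuousLinearMap.toSpanSingleton ℂ (inr ℂ Y X₂) with hT5
  set T6 : (Y →L[ℂ] Y) →L[ℂ] (X₂ →L[ℂ] Y × X₂) :=
    (compL ℂ X₂ Y (Y × X₂) (inl ℂ Y X₂)).comp ((compL ℂ X₂ Y Y).flip γ) with hT6
  have hΨ := Lq.plus (hI.comp T5) (hB.lq.comp T6)
  set Ψ : (ℂ → ℂ) → (X₂ →L[ℂ] Y × X₂) := fun g => T5 (∫ z, g z ∂ν) + T6 (R g) with hΨd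
  have hΨx : ∀ g x, Ψ g x = (R g (γ x), (∫ z, g z ∂ν) • x) := fun g x => by
    show (∫ z, g z ∂ν) • inr ℂ Y X₂ x + inl ℂ Y X₂ (R g (γ x)) = _
    simp
  set L : ℕ → ((X₂ →L[ℂ] Y × X₂) →L[ℂ] (X₂ →L[ℂ] Y × X₂)) :=
    fun k => (compL ℂ X₂ X₂ (Y × X₂)).flip (lw W k) with hL
  have hLx : ∀ k T x, L k T x = T (lw W k x) := fun k T x => rfl
  have hSd : Sd ν L z₀ ‖W‖ ‖W‖ r₀ := by
    refine ⟨fun k => ?_, norm_nonneg _, hr, hD, hae⟩
    refine le_trans ?_ (lw_norm W k)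
    refine ContinuousLinearMap.opNorm_le_bound _ (norm_nonneg _) fun T => ?_
    rw [mul_comm]
    exact T.opNorm_comp_le (lw W k)
  set U := us L z₀ Ψ with hU
  have hUq := hSd.lq hΨ
  set T7 : (Y →L[ℂ] Y) →L[ℂ] (Y × X₂ →L[ℂ] Y × X₂) :=
    (compL ℂ (Y × X₂) Y (Y × X₂) (inl ℂ Y X₂)).comp
      ((compL ℂ (Y × X₂) Y Y).flip (fst ℂ Y X₂)) with hT7
  set T8 : (X₂ →L[ℂ] Y × X₂) →L[ℂ] (Y × X₂ →L[ℂ] Y × X₂) :=
    (compL ℂ (Y × X₂) X₂ (Y × X₂)).flip (snd ℂ Y X₂) with hT8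
  refine ⟨_, fun g => T7 (R g) + T8 (U g), Lq.plus (hB.lq.comp T7) (hUq.comp T8),
    fun a c r b g x hg => ?_⟩
  have e : ∀ g, (T7 (R g) + T8 (U g)) x = (R g x.1, 0) + U g x.2 := by
    intro g
    show inl ℂ Y X₂ (R g x.1) + U g x.2 = _
    simp
  rw [e, e]
  have h3 := hB.step a c r b g x.1 hg
  -- the equation for `U`
  have key : A (U g x.2) - a • U g x.2 =
      U (fun z => (z - a) * g z) x.2 - (0, (∫ z, g z ∂ν) • x.2) := by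
    have hgz := bd_mulz hg z₀
    have hga := bd_mulz hg a
    have hs := hSd.summable hΨ hg
    have hsa := hSd.summable hΨ hga
    have hst := hSd.summable (hI.comp T5) hgz
    have v : ∀ {h : ℂ → ℂ}, Summable (fun k => L k (Ψ (pw z₀ k h))) →
        HasSum (fun k => Ψ (pw z₀ k h) (lw W k x.2)) (U h x.2) := fun {h} hh =>
      (hh.hasSum.mapL (ContinuousLinearMap.apply ℂ (Y × X₂) x.2))
    have v1 := v hs
    have v2 := v hsa
    have v3 : Summable fun k => (∫ z, pw z₀ k (fun z => (z - z₀) * g z) z ∂ν) •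
        inr ℂ Y X₂ (lw W k x.2) :=
      (hst.mapL (ContinuousLinearMap.apply ℂ (Y × X₂) x.2))
    set t : ℕ → Y × X₂ := fun k => (∫ z, pw z₀ k g z ∂ν) •
      inr ℂ Y X₂ ((-1 : ℂ) ^ k • (W ^ k) x.2) with ht
    have ht1 : ∀ k, t (k + 1) = - ((∫ z, pw z₀ k (fun z => (z - z₀) * g z) z ∂ν) •
        inr ℂ Y X₂ (lw W k x.2)) := by
      intro k
      simp only [ht, pw_succ, lw, pow_succ (-1 : ℂ) k, ContinuousLinearMap.smul_apply, mul_neg,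
        mul_one, neg_smul, map_neg, smul_neg]
    have hts1 : Summable fun k => t (k + 1) := by
      simp_rw [ht1]
      exact v3.neg
    have hts : Summable t := (summable_nat_add_iff 1).1 hts1
    have v4 : HasSum (fun k => A (Ψ (pw z₀ k g) (lw W k x.2)) - a • Ψ (pw z₀ k g) (lw W k x.2))
        (A (U g x.2) - a • U g x.2) := (v1.mapL A).sub (v1.const_smul a)
    have v5 : HasSum (fun k => Ψ (pw z₀ k fun z => (z - a) * g z) (lw W k x.2) +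
        (t (k + 1) - t k)) (U (fun z => (z - a) * g z) x.2 + (∑' k, t (k + 1) - ∑' k, t k)) :=
      v2.add (hts1.hasSum.sub hts.hasSum)
    have v6 : ∀ k, A (Ψ (pw z₀ k g) (lw W k x.2)) - a • Ψ (pw z₀ k g) (lw W k x.2) =
        Ψ (pw z₀ k fun z => (z - a) * g z) (lw W k x.2) + (t (k + 1) - t k) := by
      intro k
      set y := lw W k x.2 with hy
      have hk := bd_pw hg z₀ k
      have w1 := hB.step a c r _ (pw z₀ k g) (γ y) hk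
      have w2 : (fun z => (z - a) * pw z₀ k g z) = pw z₀ k fun z => (z - a) * g z := by
        funext z
        simp only [pw]
        ring
      rw [w2] at w1
      have w3 : Integrable (pw z₀ k g) ν := Integrable.of_bound hk.meas.aestronglyMeasurable _
        (Eventually.of_forall hk.bd)
      have hk' := bd_pw hgz z₀ k
      have w4 : Integrable (pw z₀ k fun z => (z - z₀) * g z) ν :=
        Integrable.of_bound hk'.meas.aestronglyMeasurable _ (Eventually.of_forall hk'.bd)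
      have w5 : ∫ z, pw z₀ k (fun z => (z - a) * g z) z ∂ν =
          ∫ z, pw z₀ k (fun z => (z - z₀) * g z) z ∂ν + (z₀ - a) * ∫ z, pw z₀ k g z ∂ν := by
        rw [← integral_const_mul, ← integral_add w4 (w3.const_mul _)]
        congr 1
        funext z
        simp only [pw]
        ring
      have w6 : t k = (∫ z, pw z₀ k g z ∂ν) • inr ℂ Y X₂ (z₀ • y - R₂ y) := by
        simp only [ht]
        congr 2
        rcases k with _ | k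
        · rw [hy, lw_h0 hW]
          simp
        · rw [hy, lw_h1 hW]
          simp [lw, pow_succ]
      rw [hΨx, hΨx, hA, ht1 k, w6]
      refine Prod.ext ?_ ?_
      · simp only [Prod.fst_sub, Prod.smul_fst, Prod.fst_add, Prod.fst_neg,
          ContinuousLinearMap.inr_apply, smul_zero, neg_zero, sub_zero, add_zero]
        rw [add_sub_right_comm, w1]
        rw [map_smul]
        abel
      · simp only [Prod.snd_sub, Prod.smul_snd, Prod.snd_add, Prod.snd_neg,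
          ContinuousLinearMap.inr_apply]
        rw [w5, map_smul]
        module
    have v7 := v4.unique (v5.congr_fun v6)
    rw [v7, hts.tsum_eq_zero_add]
    have w7 : t 0 = (0, (∫ z, g z ∂ν) • x.2) := by
      simp only [ht, pw_zero, pow_zero, one_smul, ContinuousLinearMap.inr_apply]
      simp
    rw [w7]
    abel
  rw [map_add, hA, smul_add]
  have e3 : ((B (R g x.1) + γ 0, R₂ 0) : Y × X₂) + A (U g x.2) -
      (a • ((R g x.1, 0) : Y × X₂) + a • U g x.2) =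
      (B (R g x.1) - a • R g x.1, 0) + (A (U g x.2) - a • U g x.2) := by
    rw [map_zero, map_zero, add_zero]
    rw [add_sub_add_comm]
    congr 1
    simp
  rw [e3, key, h3]
  refine Prod.ext ?_ ?_
  · simp
    abel
  · simp

end

end Pool.Agent.N812.BC
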