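import Pool.Agent.N812.BC.Cp

/-!
# Triangular operators with a thick middle entry
-/

set_option autoImplicit false

namespace Pool.Agent.N812.BC

open MeasureTheory Set Metric Filter Topology
open Pool.Agent.R277.SP (FC)
open Pool.Agent.N812.IS (ind ind_bd nn)
open Pool.Agent.N812.BA (bm orb orb_apply PNuc Chb)
open Pool.Agent.N812.BB hiding wf wf_meas wf_lq
open Pool.Agent.Y271.RO (Bd)
open ContinuousLinearMap (compL inl inr fst snd)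
open scoped InnerProductSpace ENNReal NNReal BoundedContinuousFunction

/-- `A` is upper triangular on `X₀ × X₁ × X₂` -/
def Tri {X₀ X₁ X₂ : Type} [NormedAddCommGroup X₀] [NormedSpace ℂ X₀] [NormedAddCommGroup X₁]
    [NormedSpace ℂ X₁] [NormedAddCommGroup X₂] [NormedSpace ℂ X₂]
    (A : X₀ × X₁ × X₂ →L[ℂ] X₀ × X₁ × X₂) (R₀ : X₀ →L[ℂ] X₀) (N : X₁ →L[ℂ] X₁)
    (R₂ : X₂ →L[ℂ] X₂) : Prop :=
  ∃ (α : X₁ →L[ℂ] X₀) (β : X₂ →L[ℂ] X₀) (γ : X₂ →L[ℂ] X₁),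
    ∀ x y w, A (x, y, w) = (R₀ x + α y + β w, N y + γ w, R₂ w)

lemma ind_bd' {Q : Set ℂ} (hQ : MeasurableSet Q) {a : ℂ} {r : ℝ} (hs : Q ⊆ ball a r) :
    Bd (ind Q) a r 1 := by
  refine ⟨measurable_const.indicator hQ, zero_le_one, fun z => ?_, fun z hz => ?_⟩
  · by_cases hz : z ∈ Q
    · rw [ind, indicator_of_mem hz, norm_one]
    · rw [ind, indicator_of_notMem hz, norm_zero]
      exact zero_le_one
  · exact indicator_of_notMem (fun h => hz (hs h)) _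

lemma res_ex {X : Type} [NormedAddCommGroup X] [NormedSpace ℂ X] {R : X →L[ℂ] X} {z₀ : ℂ}
    (h : z₀ ∉ spectrum ℂ R) : ∃ W : X →L[ℂ] X, ∀ x, z₀ • W x - R (W x) = x := by
  rw [spectrum.notMem_iff] at h
  obtain ⟨u, hu⟩ := h
  refine ⟨↑u⁻¹, fun x => ?_⟩
  have h1 : (algebraMap ℂ (X →L[ℂ] X) z₀ - R) * (↑u⁻¹ : X →L[ℂ] X) = 1 := by
    rw [← hu]
    exact u.mul_inv
  have h2 : ((algebraMap ℂ (X →L[ℂ] X) z₀ - R) * (↑u⁻¹ : X →L[ℂ] X)) x = x := by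
    rw [h1]
    rfl
  exact h2

section

variable {X₀ X₁ X₂ : Type} [NormedAddCommGroup X₀] [NormedSpace ℂ X₀] [NormedAddCommGroup X₁]
    [NormedSpace ℂ X₁] [NormedAddCommGroup X₂] [NormedSpace ℂ X₂] [CompleteSpace X₀]
    [CompleteSpace X₁] [CompleteSpace X₂] {S : Set ℂ} [CompactSpace S]
    {Φ : C(S, ℂ) →ₐ[ℂ] (X₁ →L[ℂ] X₁)} {N : X₁ →L[ℂ] X₁} {R₀ : X₀ →L[ℂ] X₀} {R₂ : X₂ →L[ℂ] X₂}
    {M q : ℝ} {x : X₁} {ν : Measure ℂ} [IsFiniteMeasure ν] {A K : X₀ × X₁ × X₂ →L[ℂ] X₀ × X₁ × X₂}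

/-- the data near a point -/
theorem pt (hF : FC Φ N M) {τ : ℝ} {D : ℝ≥0} (hτ : 1 < τ)
    (hτ2 : τ ≤ 2) (hP : Pb ν S τ D) (hνS : ν Sᶜ = 0) (hq : τ / (τ - 1) ≤ q) {C : ℝ}
    [Fact (1 ≤ ENNReal.ofReal q)] (hq1 : 1 < q) (hO : Orb ν S N (orb Φ x) q C)
    (hL : Lq ν q C (lam ν (orb Φ x) q))
    {p : ℝ} (hp : 0 < p) (hpq : p * (1 / τ + 1 - 1 / q) ≤ 1) (hK : PNuc p K)
    (hA : Tri A R₀ N R₂) {z₀ : ℂ} (h0 : z₀ ∉ spectrum ℂ R₀) (h2 : z₀ ∉ spectrum ℂ R₂)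
    (y : X₁ →L[ℂ] ℂ) (hy : ∀ r : ℝ, 0 < r → ν ({z | den hL hq1 y z ≠ 0} ∩ ball z₀ r) ≠ 0)
    {c : ℂ} {r : ℝ} (hc : z₀ ∈ ball c r) : Chb (A + K) c r := by
  have hSc : IsCompact S := isCompact_iff_compactSpace.2 inferInstance
  have hτ1 : 0 < τ - 1 := by linarith
  -- the exponents
  set q₀ : ℝ := τ / (τ - 1) with hq₀
  have hq₀2 : 2 ≤ q₀ := by
    rw [hq₀, le_div_iff₀ hτ1]
    linarith
  have hq₀1 : 1 < q₀ := by linarith
  have hconj : q₀.HolderConjugate τ := (Real.HolderConjugate.conjExponent hτ).symm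
  have hτq₀ : q₀ / (q₀ - 1) = τ := by
    rw [hq₀]
    field_simp
    ring
  have hq2 : 2 ≤ q := hq₀2.trans hq
  have hqτ : q / (q - 1) ≤ τ := by
    rw [← hτq₀, div_le_div_iff₀ (by linarith) (by linarith)]
    nlinarith
  obtain ⟨α, β, γ, hA⟩ := hA
  obtain ⟨W₀, hW₀⟩ := res_ex h0
  obtain ⟨W₂, hW₂⟩ := res_ex h2
  obtain ⟨u, v, hu, hv, hv2, hsum⟩ := unb hp hτ hq1 hqτ hpq hK
  -- the radius
  rw [mem_ball, dist_eq_norm] at hc
  set r₀ : ℝ := min ((r - ‖z₀ - c‖) / 2) (1 / (2 * (‖W₀‖ + ‖W₂‖ + 1))) with hr₀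
  have hr₀0 : 0 < r₀ := lt_min (by linarith) (by positivity)
  have hr₀1 : r₀ ≤ (r - ‖z₀ - c‖) / 2 := min_le_left _ _
  have hr₀2 : r₀ ≤ 1 / (2 * (‖W₀‖ + ‖W₂‖ + 1)) := min_le_right _ _
  have hr0 : 0 < r := by linarith [norm_nonneg (z₀ - c)]
  have hsub : ball z₀ r₀ ⊆ ball c r := by
    intro z hz
    rw [mem_ball, dist_eq_norm] at hz ⊢
    calc ‖z - c‖ = ‖(z - z₀) + (z₀ - c)‖ := by congr 1; ring
      _ ≤ ‖z - z₀‖ + ‖z₀ - c‖ := norm_add_le _ _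
      _ < r := by linarith
  have hD0 : ‖W₀‖ * r₀ ≤ 1 / 2 := by
    calc ‖W₀‖ * r₀ ≤ (‖W₀‖ + ‖W₂‖ + 1) * (1 / (2 * (‖W₀‖ + ‖W₂‖ + 1))) :=
          mul_le_mul (by linarith [norm_nonneg W₂]) hr₀2 hr₀0.le (by positivity)
      _ = 1 / 2 := by
        field_simp
  have hD2 : ‖W₂‖ * r₀ ≤ 1 / 2 := by
    calc ‖W₂‖ * r₀ ≤ (‖W₀‖ + ‖W₂‖ + 1) * (1 / (2 * (‖W₀‖ + ‖W₂‖ + 1))) :=
          mul_le_mul (by linarith [norm_nonneg W₀]) hr₀2 hr₀0.le (by positivity)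
      _ = 1 / 2 := by
        field_simp
  -- the measure
  set Q : Set ℂ := ball z₀ r₀ with hQ
  have hQm : MeasurableSet Q := measurableSet_ball
  set ν' : Measure ℂ := ν.restrict Q with hν'
  have hP' : Pb ν' S τ D := fun w hw => (setLIntegral_le_lintegral _ _).trans (hP w hw)
  have hae : ∀ᵐ z ∂ν', ‖z - z₀‖ ≤ r₀ := by
    filter_upwards [ae_restrict_mem hQm] with z hz
    rw [hQ, mem_ball, dist_eq_norm] at hz
    exact hz.le
  have hR := sr_of hF hconj hP'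
  have hR' : Rs ν' q₀ _ N _ := ⟨hR.lq, hR.step⟩
  -- the extensions of the resolvent
  set B : X₁ × X₂ →L[ℂ] X₁ × X₂ :=
    ((N.comp (fst ℂ X₁ X₂)) + γ.comp (snd ℂ X₁ X₂)).prod (R₂.comp (snd ℂ X₁ X₂)) with hB
  have hBx : ∀ y w, B (y, w) = (N y + γ w, R₂ w) := fun y w => rfl
  obtain ⟨C₁, R₁, hR1⟩ := right_rs hq₀1 hr₀0.le hD2 hae hW₂ hR' hBx
  set δ : X₁ × X₂ →L[ℂ] X₀ := α.comp (fst ℂ X₁ X₂) + β.comp (snd ℂ X₁ X₂) with hδ
  have hAx : ∀ x (yw : X₁ × X₂), A (x, yw) = (R₀ x + δ yw, B yw) := by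
    rintro x ⟨y, w⟩
    rw [hA, hBx]
    refine Prod.ext ?_ rfl
    show R₀ x + α y + β w = R₀ x + (α y + β w)
    rw [add_assoc]
  obtain ⟨C₂, RA, hRA⟩ := left_rs hq₀1 hr₀0.le hD0 hae hW₀ hR1 hAx
  -- the vectors
  have hbdS : ∀ a : ℂ, ∃ D : ℝ, 0 ≤ D ∧ ∀ᵐ z ∂ν, ‖z - a‖ ≤ D := by
    intro a
    obtain ⟨D, hD⟩ := hSc.isBounded.exists_norm_le
    refine ⟨|D| + ‖a‖, by positivity, ?_⟩
    have hSae : ∀ᵐ z ∂ν, z ∈ S := by
      rw [ae_iff]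
      exact hνS
    filter_upwards [hSae] with z hz
    exact (norm_sub_le _ _).trans (add_le_add ((hD z hz).trans (le_abs_self D)) le_rfl)
  have hBi : ∀ {g : ℂ → ℂ} {a : ℂ} {r B : ℝ}, Bd g a r B → Bd (Q.indicator g) a r B := by
    intro g a r B hg
    refine ⟨hg.meas.indicator hQm, hg.nonneg, fun z => ?_, fun z hz => ?_⟩
    · by_cases hz : z ∈ Q
      · rw [indicator_of_mem hz]
        exact hg.bd z
      · rw [indicator_of_notMem hz, norm_zero]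
        exact hg.nonneg
    · by_cases hz' : z ∈ Q
      · rw [indicator_of_mem hz']
        exact hg.supp z hz
      · exact indicator_of_notMem hz' _
  have hLs : Ls ν' q C N (fun g => lam ν (orb Φ x) q (Q.indicator g)) := by
    refine ⟨⟨hO.nonneg, fun g g' a r B B' hg hg' => ?_, fun c g a r B hg => ?_,
      fun g a r B hg => ?_⟩, fun a c r B g hg => ?_⟩
    · rw [← hL.add _ _ a r B B' (hBi hg) (hBi hg')]
      congr 1
      funext z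
      exact Set.indicator_add Q g g' ▸ rfl
    · rw [← hL.smul c _ a r B (hBi hg)]
      congr 1
      funext z
      by_cases hz : z ∈ Q
      · rw [indicator_of_mem hz, indicator_of_mem hz]
      · rw [indicator_of_notMem hz, indicator_of_notMem hz, mul_zero]
    · refine (hL.bd _ a r B (hBi hg)).trans (le_of_eq ?_)
      rw [eLpNorm_indicator_eq_eLpNorm_restrict hQm]
    · obtain ⟨D, hD0, hD⟩ := hbdS a
      rw [lam_step hO hq1 hD0 hD (bd_memLp (hBi hg))]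
      congr 1
      funext z
      by_cases hz : z ∈ Q
      · rw [indicator_of_mem hz, indicator_of_mem hz]
      · rw [indicator_of_notMem hz, indicator_of_notMem hz, mul_zero]
  obtain ⟨C₃, Λ₁, hΛ1, hv1⟩ := right_ls hLs hBx
  obtain ⟨C₄, ΛA, hΛA, hvA⟩ := left_ls hr₀0.le hD0 hae hW₀ hΛ1 hAx
  have hval : ∀ g, (ΛA g).2.1 = lam ν (orb Φ x) q (Q.indicator g) := fun g => by
    rw [hvA, hv1]
  -- the perturbation
  have hC := hRA.cal hq₀1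
  have hPt : Pert ν' (fun y : (X₀ × X₁ × X₂) →L[ℂ] ℂ => y) (wf hRA (by linarith)) u v K :=
    hRA.pert hq₀2 (by rw [hτq₀]; exact hu) (by rw [hτq₀]; exact hv) hsum
  have hV : Vec ν' A (fun y : (X₀ × X₁ × X₂) →L[ℂ] ℂ => y) ΛA (fun y => den hΛA.lq hq1 y) := by
    refine ⟨hΛA.step, fun r hr => ?_, fun y => den_meas hΛA.lq hq1 y,
      fun y a r B g hg => den_rep hΛA.lq hq1 y a r B g hg⟩
    refine ⟨C₄ * (ν' univ).toReal ^ (1 / q), mul_nonneg hΛA.lq.nonneg (by positivity),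
      fun a B g hg => ?_⟩
    refine (hΛA.lq.bd g a r B hg).trans ?_
    rw [mul_assoc]
    refine mul_le_mul_of_nonneg_left ?_ hΛA.lq.nonneg
    rw [mul_comm]
    exact eLp_bd hg.nonneg hq1 hg.bd MeasurableSet.univ fun z hz => absurd (mem_univ z) hz
  have hsq := den_sq hΛA.lq hq2 v hv2
  refine half hC hPt hV (fun i j => wf_meas hRA _ _ _) hsq
    (y.comp ((fst ℂ X₁ X₂).comp (snd ℂ X₀ (X₁ × X₂)))) c hr0 ?_
  -- nonvanishing
  intro hzero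
  set y' : (X₀ × X₁ × X₂) →L[ℂ] ℂ := y.comp ((fst ℂ X₁ X₂).comp (snd ℂ X₀ (X₁ × X₂))) with hy'
  have hz1 : ∀ᵐ z ∂ν', den hΛA.lq hq1 y' z = 0 := by
    rw [measure_eq_zero_iff_ae_notMem] at hzero
    filter_upwards [hzero, ae_restrict_mem hQm] with z hz hzQ
    by_contra hne
    exact hz ⟨hne, hsub hzQ⟩
  have hI1 := (den_rep hL hq1 y z₀ r₀ 1 _ (ind_bd' hQm subset_rfl)).1
  have e0 : (fun z => ind Q z * den hL hq1 y z) = Q.indicator fun z => den hL hq1 y z := by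
    funext z
    by_cases hz : z ∈ Q
    · rw [ind, indicator_of_mem hz, indicator_of_mem hz, one_mul]
    · rw [ind, indicator_of_notMem hz, indicator_of_notMem hz, zero_mul]
  rw [e0, integrable_indicator_iff hQm] at hI1
  have hz2 : ∀ᵐ z ∂ν', den hL hq1 y z = 0 := by
    refine hI1.ae_eq_zero_of_forall_setIntegral_eq_zero fun s hs _ => ?_
    rw [Measure.restrict_restrict hs]
    have hsQ : MeasurableSet (s ∩ Q) := hs.inter hQm
    have hbd : Bd (ind (s ∩ Q)) z₀ r₀ 1 := ind_bd' hsQ inter_subset_right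
    have h3 := (den_rep hΛA.lq hq1 y' z₀ r₀ 1 _ hbd).2
    have h4 : ∫ z, ind (s ∩ Q) z * den hΛA.lq hq1 y' z ∂ν' = 0 := by
      rw [integral_congr_ae (g := fun _ => 0)]
      · simp
      · filter_upwards [hz1] with z hz
        rw [hz, mul_zero]
    rw [h4] at h3
    have h5 : y' (ΛA (ind (s ∩ Q))) = y (lam ν (orb Φ x) q (Q.indicator (ind (s ∩ Q)))) := by
      rw [← hval]
      rfl
    have h6 : Q.indicator (ind (s ∩ Q)) = ind (s ∩ Q) := by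
      unfold ind
      rw [indicator_indicator]
      congr 1
      ext z
      simp only [mem_inter_iff]
      tauto
    rw [h5, h6, (den_rep hL hq1 y z₀ r₀ 1 _ hbd).2] at h3
    rw [← integral_indicator hsQ, ← h3]
    congr 1
    funext z
    by_cases hz : z ∈ s ∩ Q
    · rw [ind, indicator_of_mem hz, indicator_of_mem hz, one_mul]
    · rw [ind, indicator_of_notMem hz, indicator_of_notMem hz, zero_mul]
  rw [ae_restrict_iff' hQm] at hz2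
  refine hy r₀ hr₀0 ?_
  rw [measure_eq_zero_iff_ae_notMem]
  filter_upwards [hz2] with z hz hz'
  exact hz'.1 (hz hz'.2)

omit [IsFiniteMeasure ν] in
/-- points of the support in the set -/
lemma ex_pt {Q : Set ℂ} (hQ : ν Q ≠ 0) {c' : ℂ} (hc' : ν {c'} = 0) :
    ∃ c ∈ Q, c ≠ c' ∧ ∀ r : ℝ, 0 < r → ν (Q ∩ ball c r) ≠ 0 := by
  have h1 : ν (Q \ {c'}) ≠ 0 := by
    rw [measure_sdiff_null hc']
    exact hQ
  obtain ⟨c, hc, h2⟩ := exists_mem_forall_mem_nhdsWithin_pos_measure h1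
  refine ⟨c, hc.1, hc.2, fun r hr h0 => ?_⟩
  have h3 := h2 ((Q \ {c'}) ∩ ball c r)
    (inter_mem_nhdsWithin _ (ball_mem_nhds c hr))
  exact h3.ne' (measure_mono_null (inter_subset_inter_left _ sdiff_subset) h0)

/-- **Triangular operators** -/
theorem one (hF : FC Φ N M) {τ : ℝ} {D : ℝ≥0} (hτ : 1 < τ)
    (hτ2 : τ ≤ 2) (hP : Pb ν S τ D) (hνS : ν Sᶜ = 0) (hq : τ / (τ - 1) ≤ q) (hx : AcV ν Φ q x)
    {p : ℝ} (hp : 0 < p) (hpq : p * (1 / τ + 1 - 1 / q) ≤ 1) (hK : PNuc p K)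
    (hA : Tri A R₀ N R₂) (c' : ℂ) (c₁ : ℂ) (r₁ : ℝ) (h : C(ℂ, ℂ)) (hh : ∀ z, z ∉ ball c₁ r₁ → h z = 0)
    (hh0 : ∀ z ∈ spectrum ℂ R₀, h z = 0) (hh2 : ∀ z ∈ spectrum ℂ R₂, h z = 0)
    (hne : Φ (h.restrict S) x ≠ 0) :
    ∃ z₀ ∈ ball c₁ r₁, z₀ ≠ c' ∧ ∀ (c : ℂ) (r : ℝ), z₀ ∈ ball c r → Chb (A + K) c r := by
  have hτ1 : 0 < τ - 1 := by linarith
  have hq₀2 : 2 ≤ τ / (τ - 1) := by
    rw [le_div_iff₀ hτ1]
    linarith
  have hq1 : 1 < q := by linarith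
  have hfact : Fact (1 ≤ ENNReal.ofReal q) := ⟨by
    rw [← ENNReal.ofReal_one]
    exact ENNReal.ofReal_le_ofReal hq1.le⟩
  obtain ⟨C, hO⟩ := orb_of hF hx
  have hL := lam_lq hO hq1
  have hcs : HasCompactSupport h := by
    refine HasCompactSupport.intro (isCompact_closedBall c₁ r₁) fun z hz => hh z fun hz' => ?_
    exact hz (ball_subset_closedBall hz')
  obtain ⟨b, hb⟩ := hcs.exists_bound_of_continuous h.continuous
  have hb0 : 0 ≤ b := (norm_nonneg _).trans (hb 0)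
  have hBd : Bd (fun z => h z) c₁ r₁ b := ⟨h.continuous.measurable, hb0, hb, hh⟩
  have e1 : lam ν (orb Φ x) q (fun z => h z) = Φ (h.restrict S) x :=
    lam_bcf hO hq1 (BoundedContinuousFunction.ofNormedAddCommGroup h h.continuous b hb)
  obtain ⟨y, hy⟩ : ∃ y : X₁ →L[ℂ] ℂ, y (Φ (h.restrict S) x) ≠ 0 := by
    by_contra hcon
    push Not at hcon
    exact hne (SeparatingDual.eq_zero_of_forall_dual_eq_zero (R := ℂ) hcon)
  set Q : Set ℂ := {z | den hL hq1 y z ≠ 0} ∩ {z | h z ≠ 0} with hQ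
  have hQ0 : ν Q ≠ 0 := by
    intro h0
    rw [measure_eq_zero_iff_ae_notMem] at h0
    apply hy
    rw [← e1, (den_rep hL hq1 y c₁ r₁ b _ hBd).2, integral_congr_ae (g := fun _ => 0)]
    · simp
    · filter_upwards [h0] with z hz
      by_contra hz'
      exact hz ⟨fun h1 => hz' (by rw [h1, mul_zero]), fun h1 => hz' (by rw [h1, zero_mul])⟩
  obtain ⟨z₀, hz₀, hz₀', hpos⟩ := ex_pt hQ0 (no_atom (by linarith) hP hνS c')
  refine ⟨z₀, ?_, hz₀', fun c r hc => ?_⟩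
  · by_contra h1
    exact hz₀.2 (hh z₀ h1)
  · refine pt hF hτ hτ2 hP hνS hq hq1 hO hL hp hpq hK hA (fun h1 => hz₀.2 (hh0 z₀ h1))
      (fun h1 => hz₀.2 (hh2 z₀ h1)) y (fun r hr h0 => hpos r hr ?_) hc
    exact measure_mono_null (inter_subset_inter_left _ inter_subset_left) h0

end

end Pool.Agent.N812.BC
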