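import Pool.Agent.N812.BB.Fi

/-!
# Series of operators applied to `L^q` bounded families
-/

set_option autoImplicit false

namespace Pool.Agent.N812.BC

open MeasureTheory Set Metric Filter Topology
open Pool.Agent.N812.BB
open Pool.Agent.Y271.RO (Bd)
open scoped ENNReal NNReal

/-- `(z - z₀)^k g(z)` -/
def pw (z₀ : ℂ) (k : ℕ) (g : ℂ → ℂ) : ℂ → ℂ := fun z => (z - z₀) ^ k * g z

lemma bd_pw {g : ℂ → ℂ} {a : ℂ} {r B : ℝ} (hg : Bd g a r B) (z₀ : ℂ) (k : ℕ) :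
    Bd (pw z₀ k g) a r ((|r| + ‖a - z₀‖) ^ k * B) := by
  have hB := hg.nonneg
  refine ⟨((measurable_id.sub_const z₀).pow_const k).mul hg.meas, by positivity, fun z => ?_,
    fun z hz => ?_⟩
  · unfold pw
    by_cases hz : z ∈ ball a r
    · rw [mem_ball, dist_eq_norm] at hz
      rw [norm_mul, norm_pow]
      refine mul_le_mul (pow_le_pow_left₀ (norm_nonneg _) ?_ k) (hg.bd z) (norm_nonneg _)
        (by positivity)
      calc ‖z - z₀‖ = ‖(z - a) + (a - z₀)‖ := by congr 1; ring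
        _ ≤ ‖z - a‖ + ‖a - z₀‖ := norm_add_le _ _
        _ ≤ _ := add_le_add (hz.le.trans (le_abs_self r)) le_rfl
    · rw [hg.supp z hz, mul_zero, norm_zero]
      positivity
  · unfold pw
    rw [hg.supp z hz, mul_zero]

lemma pw_zero (z₀ : ℂ) (g : ℂ → ℂ) : pw z₀ 0 g = g := by
  funext z
  simp [pw]

lemma pw_succ (z₀ : ℂ) (k : ℕ) (g : ℂ → ℂ) :
    pw z₀ k (fun z => (z - z₀) * g z) = pw z₀ (k + 1) g := by
  funext z
  simp only [pw, pow_succ]
  ring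

section

variable {V V' V'' : Type} [NormedAddCommGroup V] [NormedSpace ℂ V] [NormedAddCommGroup V']
  [NormedSpace ℂ V'] [NormedAddCommGroup V''] [NormedSpace ℂ V''] {ν : Measure ℂ}
  {q C C' M θ r₀ : ℝ} {z₀ : ℂ} {Ψ : (ℂ → ℂ) → V} {Ψ' : (ℂ → ℂ) → V} {L : ℕ → (V →L[ℂ] V')}

lemma _root_.Pool.Agent.N812.BB.Lq.comp (h : Lq ν q C Ψ) (T : V →L[ℂ] V') : Lq ν q (‖T‖ * C) fun g => T (Ψ g) := by
  refine ⟨mul_nonneg (norm_nonneg _) h.nonneg, fun g g' a r B B' hg hg' => ?_,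
    fun c g a r B hg => ?_, fun g a r B hg => ?_⟩
  · rw [h.add g g' a r B B' hg hg', map_add]
  · rw [h.smul c g a r B hg, map_smul]
  · rw [mul_assoc]
    exact (T.le_opNorm _).trans (mul_le_mul_of_nonneg_left (h.bd g a r B hg) (norm_nonneg _))

lemma _root_.Pool.Agent.N812.BB.Lq.plus (h : Lq ν q C Ψ) (h' : Lq ν q C' Ψ') : Lq ν q (C + C') fun g => Ψ g + Ψ' g := by
  refine ⟨add_nonneg h.nonneg h'.nonneg, fun g g' a r B B' hg hg' => ?_,
    fun c g a r B hg => ?_, fun g a r B hg => ?_⟩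
  · rw [h.add g g' a r B B' hg hg', h'.add g g' a r B B' hg hg']
    abel
  · rw [h.smul c g a r B hg, h'.smul c g a r B hg, smul_add]
  · rw [add_mul]
    exact (norm_add_le _ _).trans (add_le_add (h.bd g a r B hg) (h'.bd g a r B hg))

/-- the integral -/
lemma int_lq [IsFiniteMeasure ν] (hq : 1 < q) :
    ∃ C : ℝ, Lq ν q C fun g => ∫ z, g z ∂ν := by
  have hi : ∀ (g : ℂ → ℂ) (a : ℂ) (r B : ℝ), Bd g a r B → Integrable g ν := fun g a r B hg =>
    Integrable.of_bound hg.meas.aestronglyMeasurable B (Eventually.of_forall hg.bd)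
  refine ⟨((ν univ) ^ (1 / (1 : ℝ≥0∞).toReal - 1 / (ENNReal.ofReal q).toReal)).toReal,
    ENNReal.toReal_nonneg, fun g g' a r B B' hg hg' => ?_, fun c g a r B hg => ?_,
    fun g a r B hg => ?_⟩
  · exact integral_add (hi g a r B hg) (hi g' a r B' hg')
  · rw [smul_eq_mul]
    exact integral_const_mul c g
  · have h1 : (1 : ℝ≥0∞) ≤ ENNReal.ofReal q := by
      rw [← ENNReal.ofReal_one]
      exact ENNReal.ofReal_le_ofReal hq.le
    have h2 := eLpNorm_le_eLpNorm_mul_rpow_measure_univ (μ := ν) h1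
      hg.meas.aestronglyMeasurable
    have hexp : 0 ≤ 1 / (1 : ℝ≥0∞).toReal - 1 / (ENNReal.ofReal q).toReal := by
      rw [ENNReal.toReal_one, ENNReal.toReal_ofReal (by linarith), sub_nonneg]
      rw [div_le_div_iff₀ (by linarith) (by norm_num)]
      linarith
    have h3 : (ν univ) ^ (1 / (1 : ℝ≥0∞).toReal - 1 / (ENNReal.ofReal q).toReal) ≠ ⊤ :=
      ENNReal.rpow_ne_top_of_nonneg hexp (measure_ne_top ν _)
    have h4 : eLpNorm g (ENNReal.ofReal q) ν ≠ ⊤ :=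
      (MemLp.of_bound hg.meas.aestronglyMeasurable B (Eventually.of_forall hg.bd)).2.ne
    have h5 : ‖∫ z, g z ∂ν‖ ≤ (eLpNorm g 1 ν).toReal := by
      rw [eLpNorm_one_eq_lintegral_enorm]
      refine (norm_integral_le_integral_norm _).trans (le_of_eq ?_)
      rw [integral_norm_eq_lintegral_enorm hg.meas.aestronglyMeasurable]
    refine h5.trans ?_
    rw [mul_comm, ← ENNReal.toReal_mul]
    exact ENNReal.toReal_mono (ENNReal.mul_ne_top h4 h3) h2

/-- the data of the series -/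
structure Sd (ν : Measure ℂ) (L : ℕ → (V →L[ℂ] V')) (z₀ : ℂ) (M θ r₀ : ℝ) : Prop where
  norm : ∀ k, ‖L k‖ ≤ M * θ ^ k
  th : 0 ≤ θ
  rr : 0 ≤ r₀
  half : θ * r₀ ≤ 1 / 2
  ae : ∀ᵐ z ∂ν, ‖z - z₀‖ ≤ r₀

/-- `∑ L k (Ψ ((z - z₀)^k g))` -/
noncomputable def us (L : ℕ → (V →L[ℂ] V')) (z₀ : ℂ) (Ψ : (ℂ → ℂ) → V) (g : ℂ → ℂ) : V' :=
  ∑' k, L k (Ψ (pw z₀ k g))

lemma Sd.M_nonneg (h : Sd ν L z₀ M θ r₀) : 0 ≤ M := by
  have := (norm_nonneg _).trans (h.norm 0)
  simpa using this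

lemma Sd.term [IsFiniteMeasure ν] (h : Sd ν L z₀ M θ r₀) (hΨ : Lq ν q C Ψ) {g : ℂ → ℂ} {a : ℂ}
    {r B : ℝ} (hg : Bd g a r B) (k : ℕ) :
    ‖L k (Ψ (pw z₀ k g))‖ ≤ M * C * (eLpNorm g (ENNReal.ofReal q) ν).toReal * (1 / 2) ^ k := by
  have h1 : (eLpNorm (pw z₀ k g) (ENNReal.ofReal q) ν).toReal ≤
      r₀ ^ k * (eLpNorm g (ENNReal.ofReal q) ν).toReal := by
    have h2 : eLpNorm (pw z₀ k g) (ENNReal.ofReal q) ν ≤
        ENNReal.ofReal (r₀ ^ k) * eLpNorm g (ENNReal.ofReal q) ν := by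
      refine eLpNorm_le_mul_eLpNorm_of_ae_le_mul ?_ _
      filter_upwards [h.ae] with z hz
      unfold pw
      rw [norm_mul, norm_pow]
      exact mul_le_mul_of_nonneg_right (pow_le_pow_left₀ (norm_nonneg _) hz k) (norm_nonneg _)
    have h4 : eLpNorm g (ENNReal.ofReal q) ν ≠ ⊤ :=
      (MemLp.of_bound hg.meas.aestronglyMeasurable B (Eventually.of_forall hg.bd)).2.ne
    have h5 := ENNReal.toReal_mono (ENNReal.mul_ne_top ENNReal.ofReal_ne_top h4) h2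
    rwa [ENNReal.toReal_mul, ENNReal.toReal_ofReal (pow_nonneg h.rr k)] at h5
  have hn := h.M_nonneg
  have hC := hΨ.nonneg
  have hth := h.th
  have hrr := h.rr
  set Q := (eLpNorm g (ENNReal.ofReal q) ν).toReal with hQ
  have hQ0 : 0 ≤ Q := ENNReal.toReal_nonneg
  calc ‖L k (Ψ (pw z₀ k g))‖ ≤ ‖L k‖ * ‖Ψ (pw z₀ k g)‖ := (L k).le_opNorm _
    _ ≤ (M * θ ^ k) * (C * (r₀ ^ k * Q)) := by
        refine mul_le_mul (h.norm k) ?_ (norm_nonneg _) (by positivity)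
        exact (hΨ.bd _ a r _ (bd_pw hg z₀ k)).trans (mul_le_mul_of_nonneg_left h1 hC)
    _ = M * C * Q * (θ * r₀) ^ k := by rw [mul_pow]; ring
    _ ≤ _ := by
        refine mul_le_mul_of_nonneg_left (pow_le_pow_left₀ (by positivity) h.half k) ?_
        positivity

variable [CompleteSpace V'] [IsFiniteMeasure ν]

lemma Sd.summable (h : Sd ν L z₀ M θ r₀) (hΨ : Lq ν q C Ψ) {g : ℂ → ℂ} {a : ℂ}
    {r B : ℝ} (hg : Bd g a r B) : Summable fun k => L k (Ψ (pw z₀ k g)) :=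
  Summable.of_norm_bounded ((summable_geometric_of_lt_one (by norm_num) (by norm_num)).mul_left _)
    (h.term hΨ hg)

/-- the series has an `L^q` bound -/
theorem Sd.lq (h : Sd ν L z₀ M θ r₀) (hΨ : Lq ν q C Ψ) : Lq ν q (M * C * 2) (us L z₀ Ψ) := by
  have hn := h.M_nonneg
  have hC := hΨ.nonneg
  refine ⟨by positivity, fun g g' a r B B' hg hg' => ?_, fun c g a r B hg => ?_,
    fun g a r B hg => ?_⟩
  · unfold us
    rw [← (h.summable hΨ hg).tsum_add (h.summable hΨ hg')]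
    refine tsum_congr fun k => ?_
    rw [← map_add, ← hΨ.add _ _ a r _ _ (bd_pw hg z₀ k) (bd_pw hg' z₀ k)]
    congr 2
    funext z
    simp only [pw]
    ring
  · unfold us
    rw [← tsum_const_smul'']
    refine tsum_congr fun k => ?_
    rw [← map_smul, ← hΨ.smul c _ a r _ (bd_pw hg z₀ k)]
    congr 2
    funext z
    simp only [pw]
    ring
  · unfold us
    have h1 : HasSum (fun k : ℕ => M * C * (eLpNorm g (ENNReal.ofReal q) ν).toReal * (1 / 2) ^ k)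
        (M * C * (eLpNorm g (ENNReal.ofReal q) ν).toReal * 2) :=
      hasSum_geometric_two.mul_left _
    refine (tsum_of_norm_bounded h1 (h.term hΨ hg)).trans (le_of_eq ?_)
    ring

/-- the equation of the series -/
theorem us_id (h : Sd ν L z₀ M θ r₀) (hΨ : Lq ν q C Ψ) {S : V' →L[ℂ] V'} {J : V →L[ℂ] V'}
    (h0 : ∀ v, S (L 0 v) = z₀ • L 0 v - J v) (h1 : ∀ k v, S (L (k + 1) v) = z₀ • L (k + 1) v + L k v)
    {g : ℂ → ℂ} {b : ℂ} {r B : ℝ} (hg : Bd g b r B) (a : ℂ) :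
    S (us L z₀ Ψ g) - a • us L z₀ Ψ g = us L z₀ Ψ (fun z => (z - a) * g z) - J (Ψ g) := by
  have hs := h.summable hΨ hg
  have hg' := bd_mulz hg z₀
  have hs' := h.summable hΨ hg'
  have e1 : S (us L z₀ Ψ g) = z₀ • us L z₀ Ψ g - J (Ψ g) +
      us L z₀ Ψ (fun z => (z - z₀) * g z) := by
    unfold us
    rw [S.map_tsum hs]
    have hS : Summable fun k => S (L k (Ψ (pw z₀ k g))) := hs.mapL S
    rw [hS.tsum_eq_zero_add, h0, hs.tsum_eq_zero_add, smul_add, pw_zero]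
    have e2 : ∀ k, S (L (k + 1) (Ψ (pw z₀ (k + 1) g))) = z₀ • L (k + 1) (Ψ (pw z₀ (k + 1) g)) +
        L k (Ψ (pw z₀ k fun z => (z - z₀) * g z)) := fun k => by
      rw [h1, pw_succ]
    have hs1 : Summable fun k => L (k + 1) (Ψ (pw z₀ (k + 1) g)) := (summable_nat_add_iff 1).2 hs
    rw [tsum_congr e2, (hs1.const_smul z₀).tsum_add hs', tsum_const_smul'']
    abel
  have e3 : us L z₀ Ψ (fun z => (z - a) * g z) = us L z₀ Ψ (fun z => (z - z₀) * g z) +
      (z₀ - a) • us L z₀ Ψ g := by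
    rw [← (h.lq hΨ).smul (z₀ - a) g b r B hg, ← (h.lq hΨ).add _ _ b r _ _ hg'
      (Bd.mk (hg.meas.const_mul (z₀ - a)) (mul_nonneg (norm_nonneg (z₀ - a)) hg.nonneg)
        (fun z => by
          rw [norm_mul]
          exact mul_le_mul_of_nonneg_left (hg.bd z) (norm_nonneg _))
        (fun z hz => by rw [hg.supp z hz, mul_zero]))]
    congr 1
    funext z
    ring
  rw [e1, e3, sub_smul]
  abel

end

end Pool.Agent.N812.BC
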